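import Pool.Agent.R862.GP.Deg

/-!
MP_e29873_ag, Q1: the nontrivial `(4, 6)`-geproci sets (and the nontrivial `(4, 3 m)`-geproci sets
for every `m ≥ 2`) fall into infinitely many, in fact continuum many, projective equivalence
classes.
-/

set_option autoImplicit false

open Cardinal
open Pool.Agent.Results.MP_586029_ag.GeprociMatroid
open Pool.Agent.R862.GP
open Pool.Agent.Y744.GP

namespace Pool.Agent.Results.MP_e29873_ag.InfinitelyMany

/-- For every `m ≥ 2` there is a set `T` of continuum many nontrivial `(4, 3 m)`-geproci sets in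
projective three-space over the complex numbers, no two of which are projectively equivalent. -/
theorem result (m : ℕ) (hm : 2 ≤ m) :
    ∃ T : Set (Set P3), #T = 𝔠 ∧ (∀ Z ∈ T, IsNontrivialABGeproci 4 (3 * m) Z) ∧
      ∀ Z ∈ T, ∀ Z' ∈ T, Z ≠ Z' → ¬ ProjectivelyEquivalent Z Z' := by
  obtain ⟨k, rfl⟩ : ∃ k, m = k + 1 := ⟨m - 1, by omega⟩
  have hk : 0 < k := by omega
  obtain ⟨T, h1, h2, h3⟩ := exists_large hk
  have hinj : Set.InjOn (fun t : Fin k → ℂ => ZZ t) T := by
    intro t ht t' ht' h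
    refine h3 t ht t' ht' ?_
    have h' : ZZ t = ZZ t' := h
    rw [h']
    exact pe_refl _
  refine ⟨(fun t => ZZ t) '' T, ?_, ?_, ?_⟩
  · rw [mk_image_eq_of_injOn _ _ hinj]
    exact h1
  · rintro _ ⟨t, ht, rfl⟩
    have hg := good_of_ai (h2 t ht)
    refine ⟨⟨by norm_num, by omega, Set.finite_range _, _, DS_ne_zero hg, ?_⟩,
      not_isDegenerate_Zs (j₀ := 0) rfl, not_isGrid_Zs (j₀ := 0) rfl⟩
    intro P hP π hπ
    rw [mul_comm]
    exact geproci_deg (Nat.succ_pos k) hg hP hπ
  · rintro _ ⟨t, ht, rfl⟩ _ ⟨t', ht', rfl⟩ hne h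
    have := h3 t ht t' ht' h
    subst this
    exact hne rfl

end Pool.Agent.Results.MP_e29873_ag.InfinitelyMany
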